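import Mathlib

set_option autoImplicit false

universe u

namespace Pool.Agent.Lib.MP_8dd27d_al

open MvPolynomial

variable {K : Type u} [Field K] {n : ℕ}

/-- `r` lies in `R₁`, the degree one part of `R = S ⧸ I`. -/
def IsLin (I : Ideal (MvPolynomial (Fin n) K)) (r : MvPolynomial (Fin n) K ⧸ I) : Prop :=
  ∃ p : MvPolynomial (Fin n) K, p.IsHomogeneous 1 ∧ Ideal.Quotient.mk I p = r

/-- The ideal `J` of `R = S ⧸ I` has a linear free resolution
`⋯ → R ^ b 2 → R ^ b 1 → R ^ b 0 → J → 0`: generators `g` in `R₁`, and all matrices `A i` have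
entries in `R₁`. -/
def HasLinearResolution (I : Ideal (MvPolynomial (Fin n) K))
    (J : Ideal (MvPolynomial (Fin n) K ⧸ I)) : Prop :=
  ∃ (b : ℕ → ℕ) (g : Fin (b 0) → MvPolynomial (Fin n) K ⧸ I)
    (A : ∀ i, Matrix (Fin (b i)) (Fin (b (i + 1))) (MvPolynomial (Fin n) K ⧸ I)),
    (∀ j, IsLin I (g j)) ∧ (∀ i j k, IsLin I (A i j k)) ∧ Ideal.span (Set.range g) = J ∧
    Function.Exact (A 0).mulVec (fun v => g ⬝ᵥ v) ∧
    ∀ i, Function.Exact (A (i + 1)).mulVec (A i).mulVec

/-- `R = S ⧸ I` is universally Koszul: every ideal generated by elements of `R₁` has a linear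
resolution. -/
def UniversallyKoszul (I : Ideal (MvPolynomial (Fin n) K)) : Prop :=
  ∀ T : Set (MvPolynomial (Fin n) K ⧸ I), (∀ r ∈ T, IsLin I r) →
    HasLinearResolution I (Ideal.span T)

/-- The ideal `I` written in the new coordinates `yᵢ = ∑ⱼ M i j xⱼ`. -/
noncomputable def changeCoords (M : Matrix (Fin n) (Fin n) K)
    (I : Ideal (MvPolynomial (Fin n) K)) : Ideal (MvPolynomial (Fin n) K) :=
  I.comap (aeval (fun i => ∑ j, C (M i j) * X j) :
    MvPolynomial (Fin n) K →ₐ[K] MvPolynomial (Fin n) K)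

/-- `R = S ⧸ I` is G-quadratic: after an invertible linear change of coordinates, `I` has a
Groebner basis of quadrics for some term order. -/
def GQuadratic (I : Ideal (MvPolynomial (Fin n) K)) : Prop :=
  ∃ M : Matrix (Fin n) (Fin n) K, IsUnit M.det ∧
    ∃ (m : MonomialOrder.{0, 0} (Fin n)) (G : Set (MvPolynomial (Fin n) K)),
      (∀ g ∈ G, g ∈ changeCoords M I ∧ g ≠ 0 ∧ g.IsHomogeneous 2) ∧
      ∀ f ∈ changeCoords M I, f ≠ 0 → ∃ g ∈ G, m.degree g ≤ m.degree f

end Pool.Agent.Lib.MP_8dd27d_al
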