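import Mathlib
import Pool.Agent.Lib.MP_8dd27d_al.Defs

-- part Pool.Agent.Lib.MP_8dd27d_al.Short
section

set_option autoImplicit false

universe u v

namespace Pool.Agent.Lib.MP_8dd27d_al

open Matrix

variable {K : Type u} [Field K] {R : Type v} [CommRing R] [Algebra K R]

/-- `R` has basis `1, z, w, u` with `z w = 0`, `z z = α u`, `w w = β u`. -/
structure Pair (z w u : R) (α β : K) : Prop where
  hzw : z * w = 0
  hzz : z * z = α • u
  hww : w * w = β • u
  hα : α ≠ 0
  hβ : β ≠ 0
  hzu : z * u = 0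
  hwu : w * u = 0
  span : ∀ r : R, ∃ a b c e : K, r = algebraMap K R a + b • z + c • w + e • u
  indep : ∀ a b c e : K, algebraMap K R a + b • z + c • w + e • u = 0 →
    a = 0 ∧ b = 0 ∧ c = 0 ∧ e = 0

theorem Pair.symm {z w u : R} {α β : K} (h : Pair z w u α β) : Pair w z u β α where
  hzw := by rw [mul_comm]; exact h.hzw
  hzz := h.hww
  hww := h.hzz
  hα := h.hβ
  hβ := h.hα
  hzu := h.hwu
  hwu := h.hzu
  span := fun r => by
    obtain ⟨a, b, c, e, h1⟩ := h.span r
    exact ⟨a, c, b, e, by rw [h1]; ring⟩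
  indep := fun a b c e h1 => by
    obtain ⟨h2, h3, h4, h5⟩ := h.indep a c b e (by rw [← h1]; ring)
    exact ⟨h2, h4, h3, h5⟩

def cv (R : Type v) [CommRing R] [Algebra K R] {s : ℕ} (c : Fin s → K) : Fin s → R :=
  fun j => algebraMap K R (c j)

def vecL (z w : R) (s : ℕ) : ((Fin s → K) × (Fin s → K)) →ₗ[K] (Fin s → R) where
  toFun q := fun j => q.1 j • z + q.2 j • w
  map_add' q q' := by funext j; simp [add_smul]; ring
  map_smul' c q := by funext j; simp [mul_smul]

theorem vecL_apply (z w : R) {s : ℕ} (q : (Fin s → K) × (Fin s → K)) (j : Fin s) :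
    vecL z w s q j = q.1 j • z + q.2 j • w := rfl

theorem vecL_eq (z w : R) {s : ℕ} (p p' : Fin s → K) :
    vecL z w s (p, p') = z • cv R p + w • cv R p' := by
  funext j
  simp [vecL_apply, cv, Algebra.smul_def, mul_comm]

def Good (K : Type u) [Field K] [Algebra K R] (z w : R) {k s : ℕ} (A : Matrix (Fin k) (Fin s) R) :
    Prop :=
  (∀ i j, A i j ∈ Submodule.span K ({z, w} : Set R)) ∧
  (∀ c : Fin s → K, A *ᵥ cv R c = 0 → c = 0) ∧
  (∀ c : Fin s → K, ∃ c' : Fin s → K, A *ᵥ vecL z w s (c', c) = 0)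

theorem Pair.mul_mem {z w u : R} {α β : K} (h : Pair z w u α β) {r r' : R}
    (hr : r ∈ Submodule.span K ({z, w} : Set R)) (hr' : r' ∈ Submodule.span K ({z, w} : Set R)) :
    r * r' ∈ Submodule.span K ({u} : Set R) := by
  obtain ⟨a, b, rfl⟩ := Submodule.mem_span_pair.mp hr
  obtain ⟨c, d, rfl⟩ := Submodule.mem_span_pair.mp hr'
  refine Submodule.mem_span_singleton.mpr ⟨a * c * α + b * d * β, ?_⟩
  have h1 := h.hzw
  have h2 := h.hzz
  have h3 := h.hww
  simp only [Algebra.smul_def, map_add, map_mul] at *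
  linear_combination (-(algebraMap K R a * algebraMap K R c)) * h2 -
    (algebraMap K R b * algebraMap K R d) * h3 -
    (algebraMap K R a * algebraMap K R d + algebraMap K R b * algebraMap K R c) * h1

theorem Pair.mul_u {z w u : R} {α β : K} (h : Pair z w u α β) {r : R}
    (hr : r ∈ Submodule.span K ({z, w} : Set R)) : r * u = 0 := by
  obtain ⟨a, b, rfl⟩ := Submodule.mem_span_pair.mp hr
  rw [add_mul, smul_mul_assoc, smul_mul_assoc, h.hzu, h.hwu]; simp

theorem Pair.disj {z w u : R} {α β : K} (h : Pair z w u α β) {r r' : R}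
    (hr : r ∈ Submodule.span K ({z, w} : Set R)) (hr' : r' ∈ Submodule.span K ({u} : Set R))
    (h0 : r + r' = 0) : r = 0 ∧ r' = 0 := by
  obtain ⟨a, b, rfl⟩ := Submodule.mem_span_pair.mp hr
  obtain ⟨c, rfl⟩ := Submodule.mem_span_singleton.mp hr'
  obtain ⟨-, h1, h2, h3⟩ := h.indep 0 a b c (by simpa using h0)
  simp [h1, h2, h3]

theorem vecL_mem (z w : R) {s : ℕ} (q : (Fin s → K) × (Fin s → K)) (j : Fin s) :
    vecL z w s q j ∈ Submodule.span K ({z, w} : Set R) :=
  Submodule.mem_span_pair.mpr ⟨_, _, rfl⟩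

theorem step {z w u : R} {α β : K} (h : Pair z w u α β) {k s : ℕ} (A : Matrix (Fin k) (Fin s) R)
    (hA : Good K z w A) : ∃ (s' : ℕ) (B : Matrix (Fin s) (Fin s') R),
      Good K w z B ∧ Function.Exact B.mulVec A.mulVec := by
  obtain ⟨hA1, hA2, hA3⟩ := hA
  let P : Submodule K ((Fin s → K) × (Fin s → K)) :=
    LinearMap.ker ((A.mulVecLin.restrictScalars K).comp (vecL z w s))
  have hP : ∀ q, q ∈ P ↔ A *ᵥ vecL z w s q = 0 := fun q => Iff.rfl
  let bs := Module.finBasis K P
  let B : Matrix (Fin s) (Fin (Module.finrank K P)) R := fun i j =>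
    vecL z w s ((bs j : P) : (Fin s → K) × (Fin s → K)) i
  have hB1 : ∀ c, B *ᵥ cv R c = 
      vecL z w s ((bs.equivFun.symm c : P) : (Fin s → K) × (Fin s → K)) := by
    intro c
    rw [Module.Basis.equivFun_symm_apply, Submodule.coe_sum, map_sum]
    funext i
    simp only [mulVec, dotProduct, B, cv, Finset.sum_apply, Submodule.coe_smul, map_smul,
      Pi.smul_apply]
    simp only [Algebra.smul_def, mul_comm]
  have hB2 : ∀ q : (Fin s → K) × (Fin s → K), A *ᵥ vecL z w s q = 0 →
      ∃ c : Fin (Module.finrank K P) → K, B *ᵥ cv R c = vecL z w s q := by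
    intro q hq
    refine ⟨bs.equivFun ⟨q, (hP q).mpr hq⟩, ?_⟩
    rw [hB1, LinearEquiv.symm_apply_apply]
  have hzv : ∀ q : (Fin s → K) × (Fin s → K), z • vecL z w s q = u • cv R (α • q.1) := by
    intro q
    funext j
    simp only [Pi.smul_apply, vecL_apply, smul_eq_mul, mul_add, mul_smul_comm, h.hzw, h.hzz, cv,
      smul_zero, add_zero, map_mul]
    simp only [Algebra.smul_def]; ring
  have hwv : ∀ q : (Fin s → K) × (Fin s → K), w • vecL z w s q = u • cv R (β • q.2) := by
    intro q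
    funext j
    simp only [Pi.smul_apply, vecL_apply, smul_eq_mul, mul_add, mul_smul_comm, h.symm.hzw, h.hww,
      cv, smul_zero, zero_add, map_mul]
    simp only [Algebra.smul_def]; ring
  have hU : ∀ e : Fin s → K, ∃ c : Fin (Module.finrank K P) → K,
      w • (B *ᵥ cv R c) = u • cv R e := by
    intro e
    obtain ⟨p, hp⟩ := hA3 (β⁻¹ • e)
    obtain ⟨c, hc⟩ := hB2 _ hp
    refine ⟨c, ?_⟩
    rw [hc, hwv, smul_smul, mul_inv_cancel₀ h.hβ, one_smul]
  refine ⟨_, B, ⟨?_, ?_, ?_⟩, ?_⟩
  · intro i j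
    rw [Set.pair_comm]
    exact vecL_mem z w _ i
  · intro c hc
    rw [hB1] at hc
    have h1 : ((bs.equivFun.symm c : P) : (Fin s → K) × (Fin s → K)) = 0 := by
      ext j
      · exact (h.indep 0 _ _ 0 (by simpa [vecL_apply] using congrFun hc j)).2.1
      · exact (h.indep 0 _ _ 0 (by simpa [vecL_apply] using congrFun hc j)).2.2.1
    have h2 : bs.equivFun.symm c = 0 := Subtype.ext h1
    exact (LinearEquiv.map_eq_zero_iff _).mp h2
  · intro c
    obtain ⟨c', hc'⟩ := hU (-(α • ((bs.equivFun.symm c : P) : (Fin s → K) × (Fin s → K)).1))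
    refine ⟨c', ?_⟩
    rw [vecL_eq, mulVec_add, mulVec_smul, mulVec_smul, hc', hB1, hzv, ← smul_add]
    convert smul_zero u
    funext j
    simp [cv]
  · intro v
    constructor
    · intro hv
      choose a b c e hv' using fun j => h.span (v j)
      have h1 : v = cv R a + vecL z w s (b, c) + u • cv R e := by
        funext j
        rw [hv' j]
        simp only [Pi.add_apply, cv, vecL_apply, Pi.smul_apply, smul_eq_mul]
        simp only [Algebra.smul_def]
        ring
      have h2 : A *ᵥ (u • cv R e) = 0 := by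
        funext i
        simp only [mulVec, dotProduct, Pi.smul_apply, smul_eq_mul, ← mul_assoc,
          h.mul_u (hA1 i _), zero_mul, Finset.sum_const_zero, Pi.zero_apply]
      rw [h1, mulVec_add, mulVec_add, h2, add_zero] at hv
      have h3 : ∀ i, (A *ᵥ cv R a) i = 0 ∧ (A *ᵥ vecL z w s (b, c)) i = 0 := by
        intro i
        refine h.disj ?_ ?_ (congrFun hv i)
        · show ∑ j, A i j * cv R a j ∈ _
          refine Submodule.sum_mem _ (fun j _ => ?_)
          rw [cv, mul_comm, ← Algebra.smul_def]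
          exact Submodule.smul_mem _ _ (hA1 i j)
        · show ∑ j, A i j * vecL z w s (b, c) j ∈ _
          exact Submodule.sum_mem _ (fun j _ => h.mul_mem (hA1 i j) (vecL_mem z w _ j))
      have h4 : a = 0 := hA2 a (funext fun i => (h3 i).1)
      obtain ⟨c1, hc1⟩ := hB2 (b, c) (funext fun i => (h3 i).2)
      obtain ⟨c2, hc2⟩ := hU e
      refine ⟨cv R c1 + w • cv R c2, ?_⟩
      rw [mulVec_add, mulVec_smul, hc1, hc2, h1, h4]
      congr 1
      funext j
      simp [cv]
    · rintro ⟨r, rfl⟩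
      rw [mulVec_mulVec]
      have : A * B = 0 := by
        ext i j
        exact congrFun ((hP _).mp (bs j).2) i
      rw [this, zero_mulVec]

theorem resolution {z w u : R} {α β : K} (h : Pair z w u α β) {k s : ℕ}
    (A0 : Matrix (Fin k) (Fin s) R) (hA : Good K z w A0) :
    ∃ (b : ℕ → ℕ) (A : ∀ i, Matrix (Fin (Nat.rec s (fun j _ => b j) i : ℕ)) (Fin (b i)) R),
      (∀ i j l, A i j l ∈ Submodule.span K ({z, w} : Set R)) ∧
      Function.Exact (A 0).mulVec A0.mulVec ∧
      ∀ i, Function.Exact (A (i + 1)).mulVec (A i).mulVec := by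
  let T := Σ p : ℕ × ℕ, {A : Matrix (Fin p.1) (Fin p.2) R // Good K z w A ∨ Good K w z A}
  have hs : ∀ t : T, ∃ (s' : ℕ) (B : Matrix (Fin t.1.2) (Fin s') R),
      (Good K z w B ∨ Good K w z B) ∧ Function.Exact B.mulVec t.2.1.mulVec := by
    rintro ⟨p, A, hA | hA⟩
    · obtain ⟨s', B, h1, h2⟩ := step h A hA
      exact ⟨s', B, Or.inr h1, h2⟩
    · obtain ⟨s', B, h1, h2⟩ := step h.symm A hA
      exact ⟨s', B, Or.inl h1, h2⟩
  choose f g hg1 hg2 using hs
  let nxt : T → T := fun t => ⟨(t.1.2, f t), g t, hg1 t⟩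
  let sq : ℕ → T := fun i => Nat.rec ⟨(k, s), A0, Or.inl hA⟩ (fun _ t => nxt t) i
  refine ⟨fun i => f (sq i), fun i => Nat.rec (motive := fun i =>
    Matrix (Fin (Nat.rec s (fun j _ => f (sq j)) i : ℕ)) (Fin (f (sq i))) R)
      (g (sq 0)) (fun j _ => g (sq (j + 1))) i, ?_, hg2 (sq 0), ?_⟩
  · have : ∀ t : T, ∀ j l, g t j l ∈ Submodule.span K ({z, w} : Set R) := by
      intro t j l
      rcases hg1 t with h1 | h1
      · exact h1.1 j l
      · rw [Set.pair_comm]; exact h1.1 j l
    intro i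
    cases i with
    | zero => exact this (sq 0)
    | succ i => exact this (sq (i + 1))
  · intro i
    cases i with
    | zero => exact hg2 (sq 1)
    | succ i => exact hg2 (sq (i + 2))

theorem good_row {z w u : R} {α β : K} (h : Pair z w u α β) {s : ℕ} (g : Fin s → R)
    (hg : ∀ j, g j ∈ Submodule.span K ({z, w} : Set R)) (hli : LinearIndependent K g) :
    Good K z w (Matrix.of (fun (_ : Fin 1) j => g j)) ∨
      Good K w z (Matrix.of (fun (_ : Fin 1) j => g j)) := by
  classical
  have h2 : ∀ c : Fin s → K, (Matrix.of (fun (_ : Fin 1) j => g j)) *ᵥ cv R c = 0 → c = 0 := by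
    intro c hc
    funext j
    refine Fintype.linearIndependent_iff.mp hli c ?_ j
    have := congrFun hc 0
    simpa [mulVec, dotProduct, cv, Algebra.smul_def, mul_comm] using this
  have key : ∀ {z w : R} {α β : K}, Pair z w u α β →
      (∀ j, g j ∈ Submodule.span K ({z, w} : Set R)) → ∀ j0, g j0 * z ≠ 0 →
      Good K z w (Matrix.of (fun (_ : Fin 1) j => g j)) := by
    intro z w α β h hg j0 hj0
    refine ⟨fun _ j => hg j, h2, fun c => ?_⟩
    have hz : z ∈ Submodule.span K ({z, w} : Set R) := Submodule.subset_span (by simp)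
    have hw : w ∈ Submodule.span K ({z, w} : Set R) := Submodule.subset_span (by simp)
    obtain ⟨l, hl⟩ := Submodule.mem_span_singleton.mp (h.mul_mem (hg j0) hz)
    have hl0 : l ≠ 0 := by rintro rfl; exact hj0 (by rw [← hl, zero_smul])
    have h3 : ∑ j, g j * (c j • w) ∈ Submodule.span K ({u} : Set R) :=
      Submodule.sum_mem _ (fun j _ => h.mul_mem (hg j) (Submodule.smul_mem _ _ hw))
    obtain ⟨t, ht⟩ := Submodule.mem_span_singleton.mp h3
    refine ⟨Pi.single j0 (-(t / l)), ?_⟩
    funext i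
    simp only [mulVec, dotProduct, of_apply, vecL_apply, mul_add, Finset.sum_add_distrib, ← ht,
      Pi.zero_apply]
    rw [Finset.sum_eq_single j0]
    · rw [Pi.single_eq_same, mul_smul_comm, ← hl, smul_smul, ← add_smul]
      have : -(t / l) * l + t = 0 := by field_simp; ring
      rw [this, zero_smul]
    · intro j _ hj
      simp [Pi.single_eq_of_ne hj]
    · simp
  rcases Nat.eq_zero_or_pos s with rfl | hs
  · left
    exact ⟨fun _ j => hg j, h2, fun c => ⟨c, by funext i; simp [mulVec, dotProduct]⟩⟩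
  · let j0 : Fin s := ⟨0, hs⟩
    obtain ⟨a, b, hab⟩ := Submodule.mem_span_pair.mp (hg j0)
    by_cases h1 : g j0 * z = 0
    · right
      refine key h.symm (fun j => by rw [Set.pair_comm]; exact hg j) j0 (fun h3 => ?_)
      rw [← hab, add_mul, smul_mul_assoc, smul_mul_assoc, h.hzz, h.symm.hzw, smul_zero,
        add_zero, smul_smul] at h1
      rw [← hab, add_mul, smul_mul_assoc, smul_mul_assoc, h.hww, h.hzw, smul_zero,
        zero_add, smul_smul] at h3
      have h4 := (h.indep 0 0 0 (a * α) (by rw [h1]; simp)).2.2.2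
      have h5 := (h.indep 0 0 0 (b * β) (by rw [h3]; simp)).2.2.2
      have h6 : a = 0 := (mul_eq_zero.mp h4).resolve_right h.hα
      have h7 : b = 0 := (mul_eq_zero.mp h5).resolve_right h.hβ
      apply hli.ne_zero j0
      rw [← hab, h6, h7]; simp
    · exact Or.inl (key h hg j0 h1)

theorem linear_resolution {z w u : R} {α β : K} (h : Pair z w u α β) (T : Set R)
    (hT : ∀ r ∈ T, r ∈ Submodule.span K ({z, w} : Set R)) :
    ∃ (b : ℕ → ℕ) (g : Fin (b 0) → R) (A : ∀ i, Matrix (Fin (b i)) (Fin (b (i + 1))) R),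
    (∀ j, g j ∈ Submodule.span K ({z, w} : Set R)) ∧
    (∀ i j k, A i j k ∈ Submodule.span K ({z, w} : Set R)) ∧
    Ideal.span (Set.range g) = Ideal.span T ∧
    Function.Exact (A 0).mulVec (fun v => g ⬝ᵥ v) ∧
    ∀ i, Function.Exact (A (i + 1)).mulVec (A i).mulVec := by
  let W : Submodule K R := Submodule.span K T
  have hW : W ≤ Submodule.span K ({z, w} : Set R) := Submodule.span_le.mpr hT
  have : FiniteDimensional K (Submodule.span K ({z, w} : Set R)) :=
    FiniteDimensional.span_of_finite K (Set.toFinite _)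
  have : FiniteDimensional K W := Submodule.finiteDimensional_of_le hW
  let bs := Module.finBasis K W
  let g : Fin (Module.finrank K W) → R := fun j => bs j
  have hg : ∀ j, g j ∈ Submodule.span K ({z, w} : Set R) := fun j => hW (bs j).2
  have hli : LinearIndependent K g := bs.linearIndependent.map' W.subtype (by simp)
  have hspan : Ideal.span (Set.range g) = Ideal.span T := by
    apply le_antisymm
    · rw [Ideal.span_le]
      rintro _ ⟨j, rfl⟩
      exact Submodule.span_le_restrictScalars K R T (bs j).2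
    · rw [Ideal.span_le]
      intro r hr
      have h1 := congrArg Subtype.val (bs.sum_repr ⟨r, Submodule.subset_span hr⟩)
      simp only [Submodule.coe_sum, Submodule.coe_smul] at h1
      rw [← h1]
      refine Ideal.sum_mem _ (fun j _ => ?_)
      rw [Algebra.smul_def]
      exact Ideal.mul_mem_left _ _ (Ideal.subset_span ⟨j, rfl⟩)
  have hex : ∀ {s' : ℕ} (B : Matrix (Fin (Module.finrank K W)) (Fin s') R),
      Function.Exact B.mulVec (Matrix.of (fun (_ : Fin 1) j => g j)).mulVec →
      Function.Exact B.mulVec (fun v => g ⬝ᵥ v) := by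
    intro s' B hB v
    rw [← hB v]
    constructor
    · intro h1; funext i; exact h1
    · intro h1; exact congrFun h1 0
  rcases good_row h g hg hli with h1 | h1
  · obtain ⟨b, A, hA1, hA2, hA3⟩ := resolution h _ h1
    exact ⟨fun i => Nat.rec (Module.finrank K W) (fun j _ => b j) i, g, A, hg, hA1, hspan,
      hex _ hA2, hA3⟩
  · obtain ⟨b, A, hA1, hA2, hA3⟩ := resolution h.symm _ h1
    refine ⟨fun i => Nat.rec (Module.finrank K W) (fun j _ => b j) i, g, A, hg, ?_, hspan,
      hex _ hA2, hA3⟩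
    intro i j k
    rw [Set.pair_comm]
    exact hA1 i j k

end Pool.Agent.Lib.MP_8dd27d_al
end

-- part Pool.Agent.Lib.MP_8dd27d_al.Example
section

set_option autoImplicit false

universe u

namespace Pool.Agent.Lib.MP_8dd27d_al

open MvPolynomial

variable {K : Type u} [Field K]

/-- concrete four dimensional model -/
@[ext] structure Q (d : K) where
  a : K
  b : K
  c : K
  e : K

namespace Q
variable {d : K}

instance : Zero (Q d) := ⟨⟨0, 0, 0, 0⟩⟩
instance : One (Q d) := ⟨⟨1, 0, 0, 0⟩⟩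
instance : Add (Q d) := ⟨fun p q => ⟨p.a + q.a, p.b + q.b, p.c + q.c, p.e + q.e⟩⟩
instance : Neg (Q d) := ⟨fun p => ⟨-p.a, -p.b, -p.c, -p.e⟩⟩
instance : Mul (Q d) := ⟨fun p q => ⟨p.a * q.a, p.a * q.b + p.b * q.a, p.a * q.c + p.c * q.a,
  p.a * q.e + p.e * q.a + p.b * q.b - d * (p.c * q.c)⟩⟩

theorem zero_def : (0 : Q d) = ⟨0, 0, 0, 0⟩ := rfl
theorem one_def : (1 : Q d) = ⟨1, 0, 0, 0⟩ := rfl
theorem add_def (p q : Q d) : p + q = ⟨p.a + q.a, p.b + q.b, p.c + q.c, p.e + q.e⟩ := rfl
theorem neg_def (p : Q d) : -p = ⟨-p.a, -p.b, -p.c, -p.e⟩ := rfl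
theorem mul_def (p q : Q d) : p * q = ⟨p.a * q.a, p.a * q.b + p.b * q.a, p.a * q.c + p.c * q.a,
  p.a * q.e + p.e * q.a + p.b * q.b - d * (p.c * q.c)⟩ := rfl

instance : CommRing (Q d) where
  add_assoc p q r := by ext <;> simp only [add_def] <;> ring
  zero_add p := by ext <;> simp only [add_def, zero_def] <;> ring
  add_zero p := by ext <;> simp only [add_def, zero_def] <;> ring
  add_comm p q := by ext <;> simp only [add_def] <;> ring
  neg_add_cancel p := by ext <;> simp only [add_def, zero_def, neg_def] <;> ring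
  mul_assoc p q r := by ext <;> simp only [mul_def] <;> ring
  one_mul p := by ext <;> simp only [mul_def, one_def] <;> ring
  mul_one p := by ext <;> simp only [mul_def, one_def] <;> ring
  zero_mul p := by ext <;> simp only [mul_def, zero_def] <;> ring
  mul_zero p := by ext <;> simp only [mul_def, zero_def] <;> ring
  mul_comm p q := by ext <;> simp only [mul_def] <;> ring
  left_distrib p q r := by ext <;> simp only [mul_def, add_def] <;> ring
  right_distrib p q r := by ext <;> simp only [mul_def, add_def] <;> ring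
  nsmul := nsmulRec
  zsmul := zsmulRec

def emb (d : K) : K →+* Q d where
  toFun t := ⟨t, 0, 0, 0⟩
  map_one' := rfl
  map_zero' := rfl
  map_mul' s t := by ext <;> simp only [mul_def] <;> ring
  map_add' s t := by ext <;> simp only [add_def] <;> ring

noncomputable instance : Algebra K (Q d) := (emb d).toAlgebra

theorem alg_def (t : K) : algebraMap K (Q d) t = ⟨t, 0, 0, 0⟩ := rfl

end Q

/-- the ideal `(x y, y ^ 2 + d x ^ 2)` -/
noncomputable abbrev Id (d : K) : Ideal (MvPolynomial (Fin 2) K) :=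
  Ideal.span {X 0 * X 1, X 1 ^ 2 + C d * X 0 ^ 2}

noncomputable abbrev xx (d : K) : MvPolynomial (Fin 2) K ⧸ Id d := Ideal.Quotient.mk _ (X 0)
noncomputable abbrev yy (d : K) : MvPolynomial (Fin 2) K ⧸ Id d := Ideal.Quotient.mk _ (X 1)

theorem sm (d c : K) (r : MvPolynomial (Fin 2) K ⧸ Id d) :
    c • r = algebraMap K (MvPolynomial (Fin 2) K ⧸ Id d) c * r := Algebra.smul_def c r

theorem xy_zero (d : K) : xx d * yy d = 0 := by
  rw [← map_mul, Ideal.Quotient.eq_zero_iff_mem]
  exact Ideal.subset_span (by simp)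

theorem yy_eq (d : K) : yy d * yy d = (-d) • (xx d * xx d) := by
  have h : Ideal.Quotient.mk (Id d) (X 1 ^ 2 + C d * X 0 ^ 2) = 0 := by
    rw [Ideal.Quotient.eq_zero_iff_mem]
    exact Ideal.subset_span (by simp)
  rw [map_add, map_mul, map_pow, map_pow] at h
  have h2 : Ideal.Quotient.mk (Id d) (C d) = algebraMap K _ d := rfl
  rw [h2] at h
  rw [sm, map_neg]
  linear_combination h

noncomputable def psi (d : K) : (MvPolynomial (Fin 2) K ⧸ Id d) →ₐ[K] Q d :=
  Ideal.Quotient.liftₐ (Id d) (aeval ![⟨0, 1, 0, 0⟩, ⟨0, 0, 1, 0⟩]) (by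
    intro f hf
    refine (Ideal.span_le (I := RingHom.ker (aeval ![(⟨0, 1, 0, 0⟩ : Q d), ⟨0, 0, 1, 0⟩] :
      MvPolynomial (Fin 2) K →ₐ[K] Q d))).mpr ?_ hf
    rintro g (rfl | rfl)
    · simp [RingHom.mem_ker, Q.mul_def, Q.zero_def]
    · simp [RingHom.mem_ker, pow_two, Q.alg_def, Q.mul_def, Q.add_def, Q.zero_def])

theorem psi_mk (d : K) (p : MvPolynomial (Fin 2) K) : psi d (Ideal.Quotient.mk _ p) =
    aeval ![(⟨0, 1, 0, 0⟩ : Q d), ⟨0, 0, 1, 0⟩] p := rfl

theorem psi_x (d : K) : psi d (xx d) = ⟨0, 1, 0, 0⟩ := by rw [psi_mk]; simp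
theorem psi_y (d : K) : psi d (yy d) = ⟨0, 0, 1, 0⟩ := by rw [psi_mk]; simp

theorem pair (d : K) (hd : d ≠ 0) : Pair (xx d) (yy d) (xx d * xx d) (1 : K) (-d) := by
  have hxu : xx d * (xx d * xx d) = 0 := by
    have h1 : (-d) • (xx d * (xx d * xx d)) = 0 := by
      rw [← mul_smul_comm, ← yy_eq, ← mul_assoc, xy_zero, zero_mul]
    exact (smul_eq_zero.mp h1).resolve_left (neg_ne_zero.mpr hd)
  have hyu : yy d * (xx d * xx d) = 0 := by
    rw [← mul_assoc, mul_comm (yy d), xy_zero, zero_mul]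
  refine ⟨xy_zero d, (one_smul _ _).symm, yy_eq d, one_ne_zero, neg_ne_zero.mpr hd, hxu, hyu,
    ?_, ?_⟩
  · intro r
    obtain ⟨p, rfl⟩ := Ideal.Quotient.mk_surjective r
    induction p using MvPolynomial.induction_on with
    | C t => exact ⟨t, 0, 0, 0, by simp; rfl⟩
    | add p q hp hq =>
      obtain ⟨a, b, c, e, h1⟩ := hp
      obtain ⟨a', b', c', e', h2⟩ := hq
      refine ⟨a + a', b + b', c + c', e + e', ?_⟩
      rw [map_add, h1, h2, map_add, add_smul, add_smul, add_smul]; ring
    | mul_X p i hp =>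
      obtain ⟨a, b, c, e, h1⟩ := hp
      have h2 := xy_zero d
      have h3 := yy_eq d
      fin_cases i
      · refine ⟨0, a, 0, b, ?_⟩
        rw [map_mul, h1]
        show _ * xx d = _
        simp only [Algebra.smul_def, map_zero] at *
        linear_combination (algebraMap K _ c) * h2 + (algebraMap K _ e) * hxu
      · refine ⟨0, 0, a, -(c * d), ?_⟩
        rw [map_mul, h1]
        show _ * yy d = _
        simp only [Algebra.smul_def, sm, map_zero, map_neg, map_mul] at *
        linear_combination (algebraMap K _ b) * h2 + (algebraMap K _ c) * h3 +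
          (algebraMap K _ e) * hyu
  · intro a b c e h
    have h1 := congrArg (psi d) h
    simp only [Algebra.smul_def, map_add, map_mul, AlgHom.commutes, psi_x, psi_y, map_zero,
      Q.alg_def, Q.mul_def, Q.add_def, Q.zero_def, Q.mk.injEq] at h1
    simpa using h1

theorem isLin_iff (d : K) (r : MvPolynomial (Fin 2) K ⧸ Id d) :
    IsLin (Id d) r ↔ r ∈ Submodule.span K ({xx d, yy d} : Set _) := by
  constructor
  · rintro ⟨p, hp, rfl⟩
    have h1 : p ∈ Submodule.span K (Set.range (X : Fin 2 → MvPolynomial (Fin 2) K)) := by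
      rw [← homogeneousSubmodule_one_eq_span_X]; exact hp
    obtain ⟨c, rfl⟩ := (Submodule.mem_span_range_iff_exists_fun K).mp h1
    rw [Fin.sum_univ_two]
    exact Submodule.mem_span_pair.mpr ⟨c 0, c 1, rfl⟩
  · intro h
    obtain ⟨a, b, rfl⟩ := Submodule.mem_span_pair.mp h
    refine ⟨a • X 0 + b • X 1, ?_, rfl⟩
    exact (homogeneousSubmodule (Fin 2) K 1).add_mem
      (Submodule.smul_mem _ _ (isHomogeneous_X K 0)) (Submodule.smul_mem _ _ (isHomogeneous_X K 1))

theorem uk (d : K) (hd : d ≠ 0) : UniversallyKoszul (Id d) := by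
  intro T hT
  obtain ⟨b, g, A, h1, h2, h3, h4, h5⟩ := linear_resolution (pair d hd) T
    (fun r hr => (isLin_iff d r).mp (hT r hr))
  exact ⟨b, g, A, fun j => (isLin_iff d _).mpr (h1 j), fun i j k => (isLin_iff d _).mpr (h2 i j k),
    h3, h4, h5⟩

theorem mem_change (d : K) (M : Matrix (Fin 2) (Fin 2) K) (i : Fin 2) (k : ℕ) (c : K) :
    C c * X i ^ k ∈ changeCoords M (Id d) ↔ c • (M i 0 • xx d + M i 1 • yy d) ^ k = 0 := by
  unfold changeCoords
  rw [Ideal.mem_comap, ← Ideal.Quotient.eq_zero_iff_mem]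
  simp only [map_mul, map_pow, aeval_C, aeval_X, Fin.sum_univ_two, map_add, sm]
  rfl

theorem sq_lin (d a b : K) : (a • xx d + b • yy d) ^ 2 = (a ^ 2 - d * b ^ 2) • (xx d * xx d) := by
  have h2 := xy_zero d
  have h3 := yy_eq d
  simp only [sm, map_neg, map_mul, map_sub, map_pow] at *
  linear_combination (2 * algebraMap K _ a * algebraMap K _ b) * h2 +
    (algebraMap K _ b) ^ 2 * h3

theorem not_gq (d : K) (hd : ¬ IsSquare d) : ¬ GQuadratic (Id d) := by
  classical
  have hd0 : d ≠ 0 := by rintro rfl; exact hd ⟨0, by simp⟩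
  have hp := pair d hd0
  rintro ⟨M, hM, m, G, hG1, hG2⟩
  obtain ⟨i, -, hi⟩ := Finset.exists_min_image (Finset.univ : Finset (Fin 2))
    (fun j => m.toSyn (Finsupp.single j 1)) Finset.univ_nonempty
  have h3 : C 1 * X i ^ 3 ∈ changeCoords M (Id d) := by
    rw [mem_change, one_smul, pow_succ', sq_lin, mul_smul_comm,
      hp.mul_u (Submodule.mem_span_pair.mpr ⟨_, _, rfl⟩), smul_zero]
  have h4 : (C 1 * X i ^ 3 : MvPolynomial (Fin 2) K) = monomial (Finsupp.single i 3) 1 := by
    rw [C_mul_X_pow_eq_monomial]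
  obtain ⟨g, hg, hdeg⟩ := hG2 _ h3 (by rw [h4]; simp)
  obtain ⟨hg1, hg2, hg3⟩ := hG1 g hg
  rw [h4, m.degree_monomial, if_neg one_ne_zero] at hdeg
  have hsum : ∀ s ∈ g.support, s 0 + s 1 = 2 := by
    intro s hs
    have := hg3 (mem_support_iff.mp hs)
    simpa [Finsupp.weight_apply, Finsupp.sum_fintype, Fin.sum_univ_two] using this
  have h5 : m.degree g = Finsupp.single i 2 := by
    have h6 := hsum _ (m.degree_mem_support hg2)
    have h7 := hdeg 0
    have h8 := hdeg 1
    ext j
    fin_cases i <;> fin_cases j <;> simp at h7 h8 ⊢ <;> omega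
  have h6 : ∀ s ∈ g.support, s = Finsupp.single i 2 := by
    intro s hs
    apply m.toSyn.injective
    apply le_antisymm (h5 ▸ m.le_degree hs)
    have h7 := hsum s hs
    have h8 : ∃ j k : Fin 2, s = Finsupp.single j 1 + Finsupp.single k 1 := by
      have : s 0 = 0 ∨ s 0 = 1 ∨ s 0 = 2 := by omega
      rcases this with h | h | h
      · exact ⟨1, 1, by ext j; fin_cases j <;> simp <;> omega⟩
      · exact ⟨0, 1, by ext j; fin_cases j <;> simp <;> omega⟩
      · exact ⟨0, 0, by ext j; fin_cases j <;> simp <;> omega⟩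
    obtain ⟨j, k, rfl⟩ := h8
    have h9 : Finsupp.single i 2 = Finsupp.single i 1 + Finsupp.single i 1 := by
      rw [← Finsupp.single_add]
    rw [h9, map_add, map_add]
    exact add_le_add (hi j (Finset.mem_univ _)) (hi k (Finset.mem_univ _))
  have h7 : g = C (coeff (Finsupp.single i 2) g) * X i ^ 2 := by
    rw [C_mul_X_pow_eq_monomial]
    ext s
    rw [coeff_monomial]
    split_ifs with h
    · rw [h]
    · by_contra h8
      exact h (h6 s (mem_support_iff.mpr h8)).symm
  have h8 : coeff (Finsupp.single i 2) g ≠ 0 := by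
    intro h; apply hg2; rw [h7, h]; simp
  rw [h7, mem_change, sq_lin, smul_smul] at hg1
  have h9 := (hp.indep 0 0 0 _ (by rw [hg1]; simp)).2.2.2
  have h10 : M i 0 ^ 2 - d * M i 1 ^ 2 = 0 := (mul_eq_zero.mp h9).resolve_left h8
  by_cases h11 : M i 1 = 0
  · have h12 : M i 0 = 0 := by
      rw [h11] at h10
      simpa using h10
    apply hM.ne_zero
    apply Matrix.det_eq_zero_of_row_eq_zero i
    intro j
    fin_cases j
    · exact h12
    · exact h11
  · apply hd
    refine ⟨M i 0 / M i 1, ?_⟩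
    field_simp
    linear_combination -h10

end Pool.Agent.Lib.MP_8dd27d_al
end
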